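import Pool.Agent.TH215.TM.Asm
import Pool.Agent.TH182.J302
import Pool.Agent.Y176.NC.Proj
import Pool.Agent.Y176.NC.Inf

/-!
# A threefold with a crepant resolution but without a non-commutative crepant resolution

Let `R = ℂ[x, y, z, w] / (w⁴ + x³ + y³ + z³)`, a normal Gorenstein domain of dimension three of
finite type over `ℂ` with an isolated singularity at the origin. The blow-up of the origin is a
(projective) crepant resolution of `Spec R`. Every finitely generated reflexive `R`-module `M` such
that `End_R(M)` is maximal Cohen-Macaulay is projective; hence `End_R(M)` has infinite global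
dimension at the origin if `M ≠ 0`, and `R` has no non-commutative crepant resolution.
-/

set_option autoImplicit false

open CategoryTheory Limits AlgebraicGeometry TensorProduct
open Pool.Agent.Helper165 Pool.Agent.TH215.TM

namespace Pool.Agent.Results.MP_edf92a_ag.CrepantWithoutNCCR

/-- `R` is a normal Gorenstein domain of dimension three, of finite type over `ℂ`. Gorenstein
means that `R` has finite injective dimension over itself (here at most three). -/
structure IsNormalGorensteinThreefold (R : Type) [CommRing R] [Algebra ℂ R] : Prop where
  domain : IsDomain R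
  normal : IsIntegrallyClosed R
  gorenstein : HasInjectiveDimensionLT (ModuleCat.of R R) 4
  dim : ringKrullDim R = 3
  finiteType : Algebra.FiniteType ℂ R

/-- `Spec R` has a crepant resolution, for a three-dimensional normal domain `R` over `ℂ`. -/
def HasCrepantResolution (R : Type) [CommRing R] [Algebra ℂ R] : Prop :=
  ∃ (Y : Scheme.{0}) (_ : IsIntegral Y) (f : Y ⟶ Spec (CommRingCat.of R)),
    IsCrepantResolution 3 f (Spec.map (CommRingCat.ofHom (algebraMap ℂ R)))

/-- The (not necessarily commutative) ring `A` has global dimension `d`: all left `A`-modules
have projective dimension at most `d`, and some module has projective dimension at least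
`d`. -/
def HasGlobalDimension (A : Type) [Ring A] (d : ℕ) : Prop :=
  (∀ N : ModuleCat.{0} A, HasProjectiveDimensionLE N d) ∧
    ∃ N : ModuleCat.{0} A, ¬ HasProjectiveDimensionLT N d

/-- `End_R(M)` is a non-commutative crepant resolution of `R`: `M` is a nonzero finitely
generated reflexive `R`-module, `End_R(M)` is a maximal Cohen-Macaulay `R`-module and
its localization at every prime `p` of `R` has global dimension equal to the Krull dimension
of `R_p`. -/
structure IsNCCR (R : Type) [CommRing R] (M : Type) [AddCommGroup M] [Module R M] : Prop where
  nontrivial : Nontrivial M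
  finite : Module.Finite R M
  reflexive : Module.IsReflexive R M
  cohenMacaulay : IsCM R (Module.End R M)
  globalDimension : ∀ (p : Ideal R) [p.IsPrime], ∃ d : ℕ,
    ringKrullDim (Localization.AtPrime p) = d ∧
    HasGlobalDimension (Localization.AtPrime p ⊗[R] Module.End R M) d

/-- `R` has a non-commutative crepant resolution. -/
def HasNCCR (R : Type) [CommRing R] : Prop :=
  ∃ (M : Type) (_ : AddCommGroup M) (_ : Module R M), IsNCCR R M

/-- The ring `R = ℂ[x, y, z, w] / (w⁴ + x³ + y³ + z³)` is a normal Gorenstein domain of dimension
three, of finite type over `ℂ`, and `Spec R` has a crepant resolution, but `R` has no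
non-commutative crepant resolution. -/
theorem result : IsNormalGorensteinThreefold RR ∧ HasCrepantResolution RR ∧ ¬ HasNCCR RR := by
  have hR := Pool.Agent.TH480.J295.isDomain_RR
  have hB := Pool.Agent.TH480.J295.isDomain_BB
  have hY : IsIntegral YY := Pool.Agent.TH480.J303.YY_integral
  refine ⟨?_, ⟨YY, hY, ff, ?_⟩, ?_⟩
  · exact
      { domain := hR
        normal := Pool.Agent.TH480.J296.integrallyClosed_RR
        gorenstein := gorenstein_RR
        dim := Pool.Agent.TH480.J296.dim_RR
        finiteType := Algebra.FiniteType.trans (S := S3) inferInstance inferInstance }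
  · exact
      { smooth := Pool.Agent.TH480.J303.ff_smooth Pool.Agent.TH480.J298.BB_smooth
          Pool.Agent.TH480.J297.chartW Pool.Agent.TH480.J297.chartX
        proper := Pool.Agent.TH480.J303.ff_proper
        birational := Pool.Agent.TH480.J303.ff_birational
        crepant := Pool.Agent.TH182.TMC.crepant Pool.Agent.TH480.J297.chartW
          Pool.Agent.TH480.J297.chartX }
  · rintro ⟨M, iM1, iM2, h⟩
    have h1 := h.nontrivial
    have h2 := h.finite
    have h3 : Module.Projective RR M :=
      Pool.Agent.Y176.NC.projective_of_modifying M ⟨h.finite, h.reflexive, h.cohenMacaulay⟩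
    obtain ⟨d, -, hd⟩ := h.globalDimension Pool.Agent.Y176.NC.p0
    exact Pool.Agent.Y176.NC.not_gl M d hd.1

end Pool.Agent.Results.MP_edf92a_ag.CrepantWithoutNCCR
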